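import Pool.Agent.R393.SC.Def
import Pool.Agent.Y899.IL.Ev

/-!
The converse: uniruled varieties contain polynomial curves.
-/

set_option autoImplicit false

namespace Pool.Agent.R393.SC

open Pool.Agent.Y377.ST Pool.Agent.H533R3.SL

/-- polynomials in one variable -/
theorem pev_poly {ι : Type} [Fintype ι] [DecidableEq ι] (v0 : ι) (q : Polynomial ℂ) {e : ℕ}
    (he : q.natDegree ≤ e) :
    ∃ c : (ι → Fin (e + 1)) → ℂ, ∀ w : ι → ℂ, pev c w = q.eval (w v0) := by
  classical
  refine ⟨fun m => if m = Pi.single v0 (m v0) then q.coeff (m v0) else 0, fun w => ?_⟩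
  rw [Polynomial.eval_eq_sum_range' (Nat.lt_succ_of_le he), Finset.sum_range]
  unfold pev
  symm
  refine Finset.sum_of_injOn (fun a : Fin (e + 1) => (Pi.single v0 a : ι → Fin (e + 1))) ?_ ?_ ?_ ?_
  · intro a _ b _ hab
    have := congrFun hab v0
    simpa using this
  · intro a _
    exact Finset.mem_coe.2 (Finset.mem_univ _)
  · intro m _ hm
    have h1 : ¬ m = Pi.single v0 (m v0) := fun h =>
      hm ⟨m v0, Finset.mem_coe.2 (Finset.mem_univ _), h.symm⟩
    simp only [h1, if_false, zero_mul]
  · intro a _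
    simp only [Pi.single_eq_same, if_true]
    congr 1
    rw [Finset.prod_eq_single v0]
    · rw [Pi.single_eq_same]
    · intro b _ hb
      rw [Pi.single_eq_of_ne hb]
      simp
    · intro h
      exact absurd (Finset.mem_univ _) h

theorem curveVec_poly {n : ℕ} (q : Fin n → Polynomial ℂ) :
    ∃ e, CurveVec 1 2 e (fun z i => (q i).eval z) := by
  obtain ⟨e, he⟩ : ∃ e, ∀ i, (q i).natDegree ≤ e := by
    refine ⟨∑ i, (q i).natDegree, fun i => ?_⟩
    exact Finset.single_le_sum (f := fun i => (q i).natDegree) (fun _ _ => Nat.zero_le _)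
      (Finset.mem_univ i)
  refine ⟨e, fun _ z => !![1, z; 0, 1], fun _ z => !![1, -z; 0, 1], ⟨?_, ?_, ?_⟩, ?_⟩
  · intro l i j
    fin_cases i <;> fin_cases j <;> simp <;> fun_prop
  · intro l z
    ext i j
    fin_cases i <;> fin_cases j <;> simp [Matrix.mul_apply, Fin.sum_univ_two]
  · intro l
    have h0 : ∀ b : ℂ, ∃ c : (Ix 1 2 → Fin (e + 1)) → ℂ, ∀ v, pev c v = b := fun b =>
      ⟨_, pev_const b⟩
    choose c hc using h0
    refine ⟨fun i j => c ((!![0, 1; 0, 0] : Matrix (Fin 2) (Fin 2) ℂ) i j), fun z i j => ?_⟩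
    simp only [hc]
    fin_cases i <;> fin_cases j <;> simp [Fin.sum_univ_two]
    · exact hasDerivAt_const _ _
    · exact hasDerivAt_id _
    · exact hasDerivAt_const _ _
    · exact hasDerivAt_const _ _
  · intro j
    obtain ⟨c, hc⟩ := pev_poly (ι := Ix 1 2) (0, true, 0, 1) (q j) (he j)
    refine ⟨c, fun z => ?_⟩
    rw [hc]
    simp [entries]

/-- A uniruled variety contains a nonconstant polynomial curve which is Zariski-dense over `k`. -/
theorem converse {k : Type} [Field k] [CharZero k] [Countable k] {n : ℕ}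
    (I : Ideal (MvPolynomial (Fin (n + 1)) k)) (hu : Uniruled I) :
    ∃ (e : ℕ) (σ : k →+* ℂ) (x : ℂ → Fin (n + 1) → ℂ), CurveVec 1 2 e x ∧
      (∀ z, ∀ F ∈ I, MvPolynomial.eval₂ σ (x z) F = 0) ∧
      (∃ z w i j, x z i * x w j ≠ x z j * x w i) ∧
      ∃ z, ∀ G : MvPolynomial (Fin (n + 1)) k, (∃ d, G.IsHomogeneous d) → G ∉ I →
        MvPolynomial.eval₂ σ (x z) G ≠ 0 := by
  obtain ⟨L, _, _, p, h1, h2, i0, j0, h3⟩ := hu
  set S : Set L := ⋃ i, Set.range (p i).coeff with hS
  have hSc : S.Countable := Set.countable_iUnion fun i => Set.countable_range _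
  let κ := IntermediateField.adjoin k S
  have hκ : Countable κ := by
    have h4 := IntermediateField.cardinalMk_adjoin_le (F := k) S
    rw [← Cardinal.mk_le_aleph0_iff]
    refine h4.trans ?_
    have h5 : Cardinal.mk k ≤ Cardinal.aleph0 := Cardinal.mk_le_aleph0
    have h6 : Cardinal.mk S ≤ Cardinal.aleph0 := Cardinal.le_aleph0_iff_set_countable.2 hSc
    simp [h6]
  have hκ0 : CharZero κ := charZero_of_injective_algebraMap (algebraMap k κ).injective
  obtain ⟨ι⟩ := Pool.Agent.Y899.ILPER.emb_complex κ
  have hlift : ∀ i, ∃ p' : Polynomial κ, p'.map (algebraMap κ L) = p i := by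
    intro i
    have h4 : p i ∈ Polynomial.lifts (algebraMap κ L) := by
      rw [Polynomial.lifts_iff_coeff_lifts]
      intro m
      exact ⟨⟨(p i).coeff m, IntermediateField.subset_adjoin k S
        (Set.mem_iUnion.2 ⟨i, m, rfl⟩)⟩, rfl⟩
    exact (Polynomial.mem_lifts _).1 h4
  choose p' hp' using hlift
  let q : Fin (n + 1) → Polynomial ℂ := fun i => (p' i).map ι
  obtain ⟨e, he⟩ := curveVec_poly q
  have hev : ∀ i, algebraMap κ L ((p' i).eval 1) = (p i).eval 1 := by
    intro i
    rw [← hp' i, Polynomial.eval_one_map]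
  refine ⟨e, ι.comp (algebraMap k κ), fun z i => (q i).eval z, he, ?_, ?_, 1, ?_⟩
  · intro z F hF
    have h4 : MvPolynomial.aeval p' F = 0 := by
      apply Polynomial.map_injective (algebraMap κ L) (algebraMap κ L).injective
      rw [Polynomial.map_zero, ← h1 F hF, MvPolynomial.aeval_def, MvPolynomial.aeval_def,
        ← Polynomial.coe_mapRingHom, MvPolynomial.hom_eval₂]
      congr 1
      · ext c : 1
        simp only [RingHom.comp_apply, Polynomial.coe_mapRingHom, Polynomial.algebraMap_apply, Polynomial.map_C]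
        rw [← IsScalarTower.algebraMap_apply k κ L]
      · funext i
        exact hp' i
    have h5 := congrArg (fun P : Polynomial κ => (P.map ι).eval z) h4
    simp only [Polynomial.map_zero, Polynomial.eval_zero] at h5
    rw [← h5, MvPolynomial.aeval_def, ← Polynomial.coe_mapRingHom, ← Polynomial.coe_evalRingHom,
      MvPolynomial.hom_eval₂, MvPolynomial.hom_eval₂]
    congr 1
    ext c : 1
    simp only [RingHom.comp_apply, Polynomial.coe_mapRingHom, Polynomial.algebraMap_apply, Polynomial.map_C,
      Polynomial.coe_evalRingHom, Polynomial.eval_C]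
  · by_contra hcon
    push Not at hcon
    apply h3
    rw [← hev, ← hev, ← hp', ← hp', ← Polynomial.map_C, ← Polynomial.map_C, ← Polynomial.map_mul,
      ← Polynomial.map_mul]
    congr 1
    apply Polynomial.map_injective ι ι.injective
    apply Polynomial.funext
    intro z
    have h4 := hcon z 1 i0 j0
    simp only [q] at h4
    rw [Polynomial.eval_one_map, Polynomial.eval_one_map] at h4
    rw [Polynomial.map_mul, Polynomial.map_mul, Polynomial.map_C, Polynomial.map_C,
      Polynomial.eval_mul, Polynomial.eval_mul, Polynomial.eval_C, Polynomial.eval_C]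
    exact h4
  · intro G hG1 hG2 h4
    apply h2 G hG1 hG2
    simp only [q, Polynomial.eval_one_map] at h4
    have h5 : MvPolynomial.aeval (fun i => (p' i).eval 1) G = 0 := by
      apply ι.injective
      rw [map_zero, ← h4, MvPolynomial.aeval_def, MvPolynomial.hom_eval₂]
    have h6 := congrArg (algebraMap κ L) h5
    rw [map_zero, MvPolynomial.aeval_def, MvPolynomial.hom_eval₂] at h6
    rw [← h6, MvPolynomial.aeval_def]
    have h7 : (fun i => (p i).eval 1) = fun i => algebraMap κ L ((p' i).eval 1) :=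
      funext fun i => (hev i).symm
    rw [h7]
    rfl

end Pool.Agent.R393.SC
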