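import Pool.Agent.Y377.ST.Conv
import Pool.Agent.Y377.IL.AllA

/-!
Entire curves given by towers of linear differential equations of bounded complexity: definitions, Taylor series,
sequences.
-/

set_option autoImplicit false

namespace Pool.Agent.R393.SC

open Pool.Agent.Y377.ST Pool.Agent.Y377.IL

/-- `X_1, ..., X_s` are entire functions with values in the invertible matrices of size `r`, with (entire)
inverses `Y_1, ..., Y_s`, and `X_l' = M_l X_l`, where the entries of `M_l` are the values of polynomials with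
complex coefficients, of degree at most `e` in each variable, at the entries of `X_i`, `Y_i`, `i < l`. -/
structure DTower {s r : ℕ} (e : ℕ) (X Y : Fin s → ℂ → Matrix (Fin r) (Fin r) ℂ) : Prop where
  diffY : ∀ l i j, Differentiable ℂ fun z => Y l z i j
  inv : ∀ l z, X l z * Y l z = 1
  ode : ∀ l, ∃ c : Fin r → Fin r → (Ix s r → Fin (e + 1)) → ℂ, ∀ z i j,
    HasDerivAt (fun z => X l z i j) (∑ k, pev (c i k) (before l (entries X Y z)) * X l z k j) z

/-- The coordinates of `x(z)` are the values of polynomials with complex coefficients, of degree at most `e` in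
each variable, at the entries of `X_1(z), X_1(z)⁻¹, ..., X_s(z), X_s(z)⁻¹`, for matrices `X_l` of size `r` as in
`DTower`. -/
def CurveVec {n : ℕ} (s r e : ℕ) (x : ℂ → Fin n → ℂ) : Prop :=
  ∃ X Y : Fin s → ℂ → Matrix (Fin r) (Fin r) ℂ, DTower e X Y ∧
    ∀ j, ∃ c : (Ix s r → Fin (e + 1)) → ℂ, ∀ z, x z j = pev c (entries X Y z)

/-- the entire functions -/
def Ent : Subalgebra ℂ (ℂ → ℂ) where
  carrier := {f | Differentiable ℂ f}
  mul_mem' := fun {f g} hf hg => by
    change Differentiable ℂ (f * g)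
    exact Differentiable.mul hf hg
  add_mem' := fun {f g} hf hg => by
    change Differentiable ℂ (f + g)
    exact Differentiable.add hf hg
  algebraMap_mem' := fun c => by
    change Differentiable ℂ (fun _ => c)
    exact differentiable_const c

theorem entAn (f : Ent) (z : ℂ) : AnalyticAt ℂ (f : ℂ → ℂ) z :=
  (show Differentiable ℂ (f : ℂ → ℂ) from f.2).analyticAt z

/-- the derivative -/
noncomputable def dE (f : Ent) : Ent := ⟨deriv (f : ℂ → ℂ), by
  have h : Differentiable ℂ (f : ℂ → ℂ) := f.2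
  change Differentiable ℂ (deriv (f : ℂ → ℂ))
  exact fun z => (h.analyticAt z).deriv.differentiableAt⟩

/-- the Taylor series -/
noncomputable def tayH (z0 : ℂ) : Ent →+* PowerSeries ℂ where
  toFun f := tay z0 (f : ℂ → ℂ)
  map_one' := by
    have h := (Pool.Agent.Y564.IL.t_TAY z0).1 1
    rw [map_one] at h
    exact h
  map_zero' := by
    have h := (Pool.Agent.Y564.IL.t_TAY z0).1 0
    rw [map_zero] at h
    exact h
  map_add' f g := ((Pool.Agent.Y564.IL.t_TAY z0).2.1 f g (entAn f z0) (entAn g z0)).1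
  map_mul' f g := ((Pool.Agent.Y564.IL.t_TAY z0).2.1 f g (entAn f z0) (entAn g z0)).2

theorem tayH_dE (z0 : ℂ) (f : Ent) : tayH z0 (dE f) = PowerSeries.derivative ℂ (tayH z0 f) :=
  (Pool.Agent.Y564.IL.t_TAY z0).2.2.1 f (entAn f z0)

theorem tayH_const (z0 c : ℂ) : tayH z0 (algebraMap ℂ Ent c) = algebraMap ℂ (PowerSeries ℂ) c :=
  (Pool.Agent.Y564.IL.t_TAY z0).1 c

theorem tayH_coeff_zero (z0 : ℂ) (f : Ent) : PowerSeries.coeff 0 (tayH z0 f) = (f : ℂ → ℂ) z0 := by
  change PowerSeries.coeff 0 (tay z0 (f : ℂ → ℂ)) = _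
  unfold tay
  rw [PowerSeries.coeff_mk]
  simp

/-- entire functions which vanish near a point -/
theorem ent_zero {f : Ent} {z0 : ℂ} (h : tayH z0 f = 0) : f = 0 := by
  have h1 := (Pool.Agent.Y564.IL.t_TAY z0).2.2.2.2 f (entAn f z0) h
  apply Subtype.ext
  have h2 : AnalyticOnNhd ℂ (f : ℂ → ℂ) Set.univ := fun z _ => entAn f z
  funext z
  exact h2.eqOn_zero_of_preconnected_of_eventuallyEq_zero isPreconnected_univ (Set.mem_univ z0) h1 (Set.mem_univ z)

instance : IsDomain Ent := by
  have h : Function.Injective (tayH 0) := (injective_iff_map_eq_zero _).2 fun f hf => ent_zero hf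
  exact h.isDomain (tayH 0)

/-! ### Sequences -/

section theta

variable (Θ : (ℕ → ℂ) →+* ℂ)

/-- the coefficientwise homomorphism from sequences of power series to power series -/
noncomputable def thP : (ℕ → PowerSeries ℂ) →+* PowerSeries ℂ where
  toFun f := PowerSeries.mk fun n => Θ fun i => PowerSeries.coeff n (f i)
  map_one' := by
    ext n
    rw [PowerSeries.coeff_mk]
    simp only [Pi.one_apply, PowerSeries.coeff_one]
    by_cases h : n = 0
    · simp only [h, if_true]
      exact map_one Θ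
    · simp only [h, if_false]
      exact map_zero Θ
  map_zero' := by
    ext n
    rw [PowerSeries.coeff_mk]
    simp only [Pi.zero_apply, map_zero]
    exact map_zero Θ
  map_add' f g := by
    ext n
    rw [map_add, PowerSeries.coeff_mk, PowerSeries.coeff_mk, PowerSeries.coeff_mk, ← map_add]
    congr 1
  map_mul' f g := by
    ext n
    rw [PowerSeries.coeff_mul]
    simp only [PowerSeries.coeff_mk]
    have h1 : (fun i => PowerSeries.coeff n ((f * g) i)) =
        ∑ p ∈ Finset.HasAntidiagonal.antidiagonal n, (fun i => PowerSeries.coeff p.1 (f i)) *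
          (fun i => PowerSeries.coeff p.2 (g i)) := by
      funext i
      rw [Finset.sum_apply, Pi.mul_apply, PowerSeries.coeff_mul]
      rfl
    rw [h1, map_sum]
    exact Finset.sum_congr rfl fun p _ => map_mul Θ _ _

theorem thP_derivative (f : ℕ → PowerSeries ℂ) :
    thP Θ (fun i => PowerSeries.derivative ℂ (f i)) = PowerSeries.derivative ℂ (thP Θ f) := by
  ext n
  rw [PowerSeries.coeff_derivative]
  change PowerSeries.coeff n (PowerSeries.mk fun n => Θ fun i =>
    PowerSeries.coeff n (PowerSeries.derivative ℂ (f i))) =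
    PowerSeries.coeff (n + 1) (PowerSeries.mk fun n => Θ fun i => PowerSeries.coeff n (f i)) * _
  rw [PowerSeries.coeff_mk, PowerSeries.coeff_mk]
  have h1 : (fun i => PowerSeries.coeff n (PowerSeries.derivative ℂ (f i))) =
      (fun i => PowerSeries.coeff (n + 1) (f i)) * ((n : ℕ → ℂ) + 1) := by
    funext i
    rw [PowerSeries.coeff_derivative, Pi.mul_apply]
    rfl
  rw [h1, map_mul, map_add, map_natCast, map_one]

theorem thP_const (c : ℕ → ℂ) :
    thP Θ (fun i => algebraMap ℂ (PowerSeries ℂ) (c i)) = algebraMap ℂ (PowerSeries ℂ) (Θ c) := by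
  ext n
  change PowerSeries.coeff n (PowerSeries.mk fun n => Θ fun i =>
    PowerSeries.coeff n (algebraMap ℂ (PowerSeries ℂ) (c i))) = _
  rw [PowerSeries.coeff_mk]
  simp only [PowerSeries.algebraMap_apply, Algebra.algebraMap_self, RingHom.id_apply, PowerSeries.coeff_C]
  by_cases h : n = 0
  · simp only [h, if_true]
  · simp only [h, if_false]
    exact map_zero Θ

/-- the field -/
abbrev KK : Type := FractionRing (PowerSeries ℂ)

/-- the homomorphism from sequences of entire functions, with centres `w i`, to the field -/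
noncomputable def psi (w : ℕ → ℂ) : (ℕ → Ent) →+* KK :=
  (algebraMap (PowerSeries ℂ) KK).comp ((thP Θ).comp
    (RingHom.pi fun i => (tayH (w i)).comp (Pi.evalRingHom (fun _ : ℕ => Ent) i)))

theorem psi_apply (w : ℕ → ℂ) (f : ℕ → Ent) :
    psi Θ w f = algebraMap (PowerSeries ℂ) KK (thP Θ fun i => tayH (w i) (f i)) := rfl

theorem psi_const (w : ℕ → ℂ) (c : ℕ → ℂ) :
    psi Θ w (fun i => algebraMap ℂ Ent (c i)) = algebraMap ℂ KK (Θ c) := by
  rw [psi_apply]
  have h1 : (fun i => tayH (w i) (algebraMap ℂ Ent (c i))) =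
      fun i => algebraMap ℂ (PowerSeries ℂ) (c i) := funext fun i => tayH_const _ _
  rw [h1, thP_const, ← IsScalarTower.algebraMap_apply]

theorem psi_der {D : Derivation ℂ KK KK} (hD : ∀ f : PowerSeries ℂ, D (algebraMap _ _ f) =
    algebraMap _ _ (PowerSeries.derivative ℂ f)) (w : ℕ → ℂ) (f : ℕ → Ent) :
    D (psi Θ w f) = psi Θ w fun i => dE (f i) := by
  rw [psi_apply, psi_apply, hD, ← thP_derivative]
  congr 2
  funext i
  exact (tayH_dE _ _).symm

/-- nonvanishing -/
theorem psi_ne (hΘ : ∀ f : ℕ → ℂ, (∃ n, ∀ i, n ≤ i → f i = 0) → Θ f = 0) (w : ℕ → ℂ)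
    {ι : Type} [Fintype ι] (f : ι → ℕ → Ent) (n : ℕ) (h : ∀ i, n ≤ i → ∃ j, (f j i : ℂ → ℂ) (w i) ≠ 0) :
    ∃ j, psi Θ w (f j) ≠ 0 := by
  obtain ⟨j, hj⟩ := theta_ne hΘ (fun j i => (f j i : ℂ → ℂ) (w i)) n h
  refine ⟨j, fun h0 => hj ?_⟩
  rw [psi_apply] at h0
  have h1 : (thP Θ fun i => tayH (w i) (f j i)) = 0 :=
    (map_eq_zero_iff _ (IsFractionRing.injective (PowerSeries ℂ) KK)).1 h0
  have h2 := congrArg (PowerSeries.coeff 0) h1
  rw [map_zero] at h2
  change PowerSeries.coeff 0 (PowerSeries.mk fun n => Θ fun i =>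
    PowerSeries.coeff n (tayH (w i) (f j i))) = 0 at h2
  rw [PowerSeries.coeff_mk] at h2
  simpa only [tayH_coeff_zero] using h2

end theta

end Pool.Agent.R393.SC
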