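import Pool.Agent.R393.SC.Main

/-!
The main theorem.
-/

set_option autoImplicit false

namespace Pool.Agent.R393.SC

open MvPolynomial Pool.Agent.Y377.ST Pool.Agent.Y377.IL Pool.Agent.Y377.EL Pool.Agent.H533R3.SL

variable {s r e n : ℕ}

/-- the Wronskians -/
noncomputable def wro (f g : Ent) : Ent := dE f * g - f * dE g

theorem const_of_wro (x : Fin (n + 1) → Ent) (h : ∀ i j, wro (x i) (x j) = 0) (i j : Fin (n + 1))
    (z w : ℂ) : (x i : ℂ → ℂ) z * (x j : ℂ → ℂ) w = (x j : ℂ → ℂ) z * (x i : ℂ → ℂ) w := by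
  obtain ⟨D, hD, hC⟩ := Pool.Agent.Y884.IL.t_FRC
  let τ : Ent →+* KK := (algebraMap (PowerSeries ℂ) KK).comp (tayH 0)
  have hτi : Function.Injective τ := by
    refine (injective_iff_map_eq_zero _).2 fun f hf => ?_
    have h1 : tayH 0 f = 0 := (map_eq_zero_iff _ (IsFractionRing.injective (PowerSeries ℂ) KK)).1 hf
    exact ent_zero h1
  have hτD : ∀ f, D (τ f) = τ (dE f) := by
    intro f
    change D (algebraMap _ _ (tayH 0 f)) = algebraMap _ _ (tayH 0 (dE f))
    rw [hD, tayH_dE]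
  have hτc : ∀ c : ℂ, τ (algebraMap ℂ Ent c) = algebraMap ℂ KK c := by
    intro c
    change algebraMap _ _ (tayH 0 (algebraMap ℂ Ent c)) = _
    rw [tayH_const, ← IsScalarTower.algebraMap_apply]
  by_cases hall : ∀ l, x l = 0
  · rw [hall i, hall j]
  push Not at hall
  obtain ⟨l, hl⟩ := hall
  have hτl : τ (x l) ≠ 0 := fun h0 => hl (hτi (by rw [h0, map_zero]))
  have hc : ∀ a, ∃ c : ℂ, x a = algebraMap ℂ Ent c * x l := by
    intro a
    have h1 : D (τ (x a)) * τ (x l) = τ (x a) * D (τ (x l)) := by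
      have h2 := congrArg τ (h a l)
      unfold wro at h2
      rw [map_zero, map_sub, map_mul, map_mul, ← hτD, ← hτD] at h2
      exact sub_eq_zero.1 h2
    set u : KK := τ (x a) / τ (x l) with hu
    have hu1 : τ (x a) = u * τ (x l) := by
      rw [hu, div_mul_cancel₀ _ hτl]
    have h3 : D u = 0 := by
      rw [hu1, D.leibniz, smul_eq_mul, smul_eq_mul] at h1
      have h4 : τ (x l) * τ (x l) * D u = 0 := by linear_combination h1
      rcases mul_eq_zero.1 h4 with h5 | h5
      · exact absurd h5 (mul_ne_zero hτl hτl)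
      · exact h5
    obtain ⟨c, hc⟩ := hC u h3
    refine ⟨c, hτi ?_⟩
    rw [map_mul, hτc, hu1, hc]
  obtain ⟨c, hc1⟩ := hc i
  obtain ⟨d, hd1⟩ := hc j
  have e1 : ∀ y, (x i : ℂ → ℂ) y = c * (x l : ℂ → ℂ) y := fun y => congrFun (congrArg Subtype.val hc1) y
  have e2 : ∀ y, (x j : ℂ → ℂ) y = d * (x l : ℂ → ℂ) y := fun y => congrFun (congrArg Subtype.val hd1) y
  rw [e1, e1, e2, e2]
  ring

/-- a point at which a function and a Wronskian do not vanish -/
theorem exists_centre (x : Fin (n + 1) → Ent) (hnc : ∃ z w i j,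
      (x i : ℂ → ℂ) z * (x j : ℂ → ℂ) w ≠ (x j : ℂ → ℂ) z * (x i : ℂ → ℂ) w) {g : Ent} (hg : g ≠ 0) :
    ∃ (w : ℂ) (i j : Fin (n + 1)), (g : ℂ → ℂ) w ≠ 0 ∧ (wro (x i) (x j) : ℂ → ℂ) w ≠ 0 := by
  by_contra hcon
  push Not at hcon
  obtain ⟨z, w, i, j, h1⟩ := hnc
  apply h1
  apply const_of_wro x
  intro a b
  by_contra h2
  apply mul_ne_zero hg h2
  apply Subtype.ext
  funext y
  change (g : ℂ → ℂ) y * (wro (x a) (x b) : ℂ → ℂ) y = 0
  by_cases h3 : (g : ℂ → ℂ) y = 0
  · rw [h3, zero_mul]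
  · rw [hcon y a b h3, mul_zero]

/-- **One closed set for all entire curves of bounded complexity.** -/
theorem strong_curve {k : Type} [Field k] [Countable k] {n : ℕ}
    (FF : Set (MvPolynomial (Fin (n + 1)) k)) (hhom : ∀ F ∈ FF, ∃ e, F.IsHomogeneous e)
    (hprime : (Ideal.span FF).IsPrime) (hnu : ¬ Uniruled (Ideal.span FF)) (s r e : ℕ) :
    ∃ G : MvPolynomial (Fin (n + 1)) k, (∃ d, G.IsHomogeneous d) ∧ G ∉ Ideal.span FF ∧
      ∀ (σ : k →+* ℂ) (x : ℂ → Fin (n + 1) → ℂ), CurveVec s r e x →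
        (∀ z, ∀ F ∈ FF, eval₂ σ (x z) F = 0) →
        (∃ z w i j, x z i * x w j ≠ x z j * x w i) → ∀ z, eval₂ σ (x z) G = 0 := by
  classical
  by_contra hcon
  have hC : ∀ G : MvPolynomial (Fin (n + 1)) k, (∃ d, G.IsHomogeneous d) → G ∉ Ideal.span FF →
      ∃ (σ : k →+* ℂ) (x : ℂ → Fin (n + 1) → ℂ), CurveVec s r e x ∧
        (∀ z, ∀ F ∈ FF, eval₂ σ (x z) F = 0) ∧ (∃ z w i j, x z i * x w j ≠ x z j * x w i) ∧
          ∃ z, eval₂ σ (x z) G ≠ 0 := by
    intro G hG1 hG2
    by_contra h1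
    refine hcon ⟨G, hG1, hG2, fun σ x hx hF hnc z => ?_⟩
    by_contra h2
    exact h1 ⟨σ, x, hx, hF, hnc, z, h2⟩
  -- an enumeration of the forms
  let S : Type := {G : MvPolynomial (Fin (n + 1)) k // (∃ d, G.IsHomogeneous d) ∧
    G ∉ Ideal.span FF}
  have hcs : Countable (MvPolynomial (Fin (n + 1)) k) := by
    rw [← Cardinal.mk_le_aleph0_iff]
    refine cardinalMk_le_max.trans ?_
    exact max_le (max_le (Cardinal.mk_le_aleph0_iff.2 inferInstance)
      (Cardinal.mk_le_aleph0_iff.2 inferInstance)) le_rfl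
  have hne : Nonempty S := ⟨⟨1, ⟨0, isHomogeneous_one _ _⟩,
    fun h1 => hprime.ne_top ((Ideal.eq_top_iff_one _).2 h1)⟩⟩
  obtain ⟨en, hen⟩ := exists_surjective_nat S
  let Q : ℕ → MvPolynomial (Fin (n + 1)) k := fun i => ∏ j ∈ Finset.range (i + 1), (en j).1
  have hQ1 : ∀ i, ∃ d, (Q i).IsHomogeneous d := by
    intro i
    choose d hd using fun j => (en j).2.1
    exact ⟨_, IsHomogeneous.prod _ _ d fun j _ => hd j⟩
  have hQ2 : ∀ i, Q i ∉ Ideal.span FF := by
    intro i h1
    obtain ⟨j, -, hj⟩ := (hprime.prod_mem_iff).1 h1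
    exact (en j).2.2 hj
  choose σ x hx hF hnc z0 hz0 using fun i => hC (Q i) (hQ1 i) (hQ2 i)
  choose X Y hXY c hc using hx
  -- the coordinates as entire functions
  let V : ℕ → Ix s r → Ent := fun i => ent (XE (hXY i)) (YE (hXY i))
  let ξ : ℕ → Fin (n + 1) → Ent := fun i j => pev (fun m => algebraMap ℂ Ent (c i j m)) (V i)
  have hξ : ∀ i j z, (ξ i j : ℂ → ℂ) z = x i z j := by
    intro i j z
    rw [hc i j z, ← evE_apply]
    change evE z (pev (fun m => algebraMap ℂ Ent (c i j m)) (V i)) = _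
    rw [map_pev]
    have h1 : (fun v => evE z (V i v)) = entries (X i) (Y i) z := funext fun v => evE_ent (hXY i) z v
    rw [h1]
    rfl
  -- values of polynomials as entire functions
  let gE : ℕ → MvPolynomial (Fin (n + 1)) k → Ent := fun i G =>
    eval₂ ((algebraMap ℂ Ent).comp (σ i)) (ξ i) G
  have hgE : ∀ i G z, (gE i G : ℂ → ℂ) z = eval₂ (σ i) (x i z) G := by
    intro i G z
    rw [← evE_apply]
    have h1 := eval₂_comp_left (evE z) ((algebraMap ℂ Ent).comp (σ i)) (ξ i) G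
    have h2 : (evE z).comp ((algebraMap ℂ Ent).comp (σ i)) = σ i := RingHom.ext fun a => rfl
    have h3 : (evE z) ∘ (ξ i) = x i z := funext fun j => hξ i j z
    rw [h2, h3] at h1
    exact h1
  have hcen : ∀ i, ∃ (w : ℂ) (a b : Fin (n + 1)), (gE i (Q i) : ℂ → ℂ) w ≠ 0 ∧
      (wro (ξ i a) (ξ i b) : ℂ → ℂ) w ≠ 0 := by
    intro i
    refine exists_centre (ξ i) ?_ fun h0 => ?_
    · obtain ⟨z, w, a, b, h1⟩ := hnc i
      exact ⟨z, w, a, b, by rw [hξ, hξ, hξ, hξ]; exact h1⟩
    · apply hz0 i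
      rw [← hgE i (Q i) (z0 i), h0]
      rfl
  choose w a b hw1 hw2 using hcen
  obtain ⟨Θ, hΘ⟩ := Pool.Agent.Y455.ST.t_THETA
  obtain ⟨D, hD, hCst⟩ := Pool.Agent.Y884.IL.t_FRC
  set Ψ := psi Θ w with hΨ
  have hΨD : ∀ f, D (Ψ f) = Ψ fun i => dE (f i) := fun f => psi_der Θ hD w f
  have hΨc : ∀ c : ℕ → ℂ, Ψ (fun i => algebraMap ℂ Ent (c i)) = algebraMap ℂ KK (Θ c) := fun c =>
    psi_const Θ w c
  let σs : k →+* ℂ := Θ.comp (RingHom.pi σ)
  let X' : Fin s → Matrix (Fin r) (Fin r) KK := fun l => Matrix.of fun a b => Ψ fun i => XE (hXY i) l a b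
  let Y' : Fin s → Matrix (Fin r) (Fin r) KK := fun l => Matrix.of fun a b => Ψ fun i => YE (hXY i) l a b
  have hV' : ∀ v, ent X' Y' v = Ψ fun i => V i v := by
    intro v
    unfold ent
    split_ifs with hv
    · change Ψ (fun i => XE (hXY i) v.1 v.2.2.1 v.2.2.2) = _
      congr 1
      funext i
      change _ = ent (XE (hXY i)) (YE (hXY i)) v
      unfold ent
      rw [if_pos hv]
    · change Ψ (fun i => YE (hXY i) v.1 v.2.2.1 v.2.2.2) = _
      congr 1
      funext i
      change _ = ent (XE (hXY i)) (YE (hXY i)) v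
      unfold ent
      rw [if_neg hv]
  have hinv' : ∀ l, X' l * Y' l = 1 := by
    intro l
    ext a b
    rw [Matrix.mul_apply]
    change ∑ j, Ψ (fun i => XE (hXY i) l a j) * Ψ (fun i => YE (hXY i) l j b) = _
    have h1 : ∑ j, Ψ (fun i => XE (hXY i) l a j) * Ψ (fun i => YE (hXY i) l j b) =
        Ψ (fun i => (XE (hXY i) l * YE (hXY i) l) a b) := by
      have h2 : (fun i => (XE (hXY i) l * YE (hXY i) l) a b) =
          ∑ j, (fun i => XE (hXY i) l a j) * (fun i => YE (hXY i) l j b) := by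
        funext i
        rw [Matrix.mul_apply, Finset.sum_apply]
        rfl
      rw [h2, map_sum]
      exact Finset.sum_congr rfl fun j _ => (map_mul Ψ _ _).symm
    rw [h1]
    have h3 : (fun i => (XE (hXY i) l * YE (hXY i) l) a b) =
        fun _ => (1 : Matrix (Fin r) (Fin r) Ent) a b := funext fun i => by rw [inv_E]
    rw [h3]
    by_cases hab : a = b
    · subst hab
      simp only [Matrix.one_apply_eq]
      exact map_one Ψ
    · simp only [Matrix.one_apply_ne hab]
      exact map_zero Ψ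
  choose C hC' using fun i => (hXY i).ode
  have hode' : ∀ l a b, D (X' l a b) =
      ∑ k, pev (fun m => algebraMap ℂ KK (Θ fun i => C i l a k m)) (before l (ent X' Y')) *
        X' l k b := by
    intro l a b
    change D (Ψ fun i => XE (hXY i) l a b) = _
    rw [hΨD]
    have h1 : (fun i => dE (XE (hXY i) l a b)) = ∑ k,
        pev (fun m i => algebraMap ℂ Ent (C i l a k m)) (before l fun v i => V i v) *
          (fun i => XE (hXY i) l k b) := by
      funext i
      rw [ode_E (hXY i) l (hC' i l) a b, Finset.sum_apply]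
      refine Finset.sum_congr rfl fun k _ => ?_
      rw [Pi.mul_apply, pev_apply]
      congr 2
      funext v
      exact before_map (Pi.evalRingHom (fun _ : ℕ => Ent) i) l (fun v i => V i v) v
    rw [h1, map_sum]
    refine Finset.sum_congr rfl fun k _ => ?_
    rw [map_mul, map_pev]
    congr 1
    have h2 : (fun m => Ψ fun i => algebraMap ℂ Ent (C i l a k m)) =
        fun m => algebraMap ℂ KK (Θ fun i => C i l a k m) := funext fun m => hΨc _
    have h3 : (fun v => Ψ (before l (fun v i => V i v) v)) = before l (ent X' Y') := by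
      funext v
      rw [← before_map Ψ l (fun v i => V i v) v]
      congr 1
      funext v'
      exact (hV' v').symm
    rw [h2, h3]
  obtain ⟨R, hR, hmem⟩ := exists_tow X' Y' hinv' (fun l a k m => Θ fun i => C i l a k m) hode'
  let x' : Fin (n + 1) → KK := fun j => Ψ fun i => ξ i j
  have hx' : ∀ j, x' j ∈ R := by
    intro j
    have h1 : x' j = pev (fun m => algebraMap ℂ KK (Θ fun i => c i j m)) (ent X' Y') := by
      change Ψ (fun i => pev (fun m => algebraMap ℂ Ent (c i j m)) (V i)) = _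
      have h2 : (fun i => pev (fun m => algebraMap ℂ Ent (c i j m)) (V i)) =
          pev (fun m i => algebraMap ℂ Ent (c i j m)) (fun v i => V i v) := by
        funext i
        rw [pev_apply]
      rw [h2, map_pev]
      congr 1
      · funext m
        exact hΨc _
      · funext v
        exact (hV' v).symm
    rw [h1]
    exact pev_in R (fun m => R.algebraMap_mem _) hmem
  have hval : ∀ G : MvPolynomial (Fin (n + 1)) k,
      eval₂ ((algebraMap ℂ KK).comp σs) x' G = Ψ fun i => gE i G := by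
    intro G
    let ρ : k →+* (ℕ → Ent) := RingHom.pi fun i => (algebraMap ℂ Ent).comp (σ i)
    have h1 := eval₂_comp_left Ψ ρ (fun j i => ξ i j) G
    have h2 : Ψ.comp ρ = (algebraMap ℂ KK).comp σs := RingHom.ext fun a => hΨc fun i => σ i a
    have h3 : eval₂ ρ (fun j i => ξ i j) G = fun i => gE i G := by
      funext i
      exact eval₂_comp_left (Pi.evalRingHom (fun _ : ℕ => Ent) i) ρ (fun j i => ξ i j) G
    rw [h2, h3] at h1
    exact h1.symm
  have hzero : ∀ F ∈ FF, eval₂ ((algebraMap ℂ KK).comp σs) x' F = 0 := by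
    intro F hFF
    rw [hval]
    have h1 : (fun i => gE i F) = 0 := funext fun i => Subtype.ext (funext fun z => by
      rw [hgE]
      exact hF i z F hFF)
    rw [h1, map_zero]
  have hnz : ∀ G : MvPolynomial (Fin (n + 1)) k, (∃ d, G.IsHomogeneous d) → G ∉ Ideal.span FF →
      eval₂ ((algebraMap ℂ KK).comp σs) x' G ≠ 0 := by
    intro G hG1 hG2
    obtain ⟨j, hj⟩ := hen ⟨G, hG1, hG2⟩
    rw [hval]
    obtain ⟨-, h1⟩ := psi_ne Θ hΘ w (fun (_ : Unit) i => gE i G) j (fun i hi => ⟨(), by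
      intro h5
      have h4 : (en j).1 ∣ Q i := Finset.dvd_prod_of_mem (fun j => (en j).1)
        (Finset.mem_range.2 (by omega))
      rw [hj] at h4
      obtain ⟨G', hG'⟩ := h4
      apply hw1 i
      rw [hgE, hG', eval₂_mul]
      rw [hgE] at h5
      rw [h5, zero_mul]⟩)
    exact h1
  -- the limit is not constant
  obtain ⟨p, hp⟩ := psi_ne Θ hΘ w (fun (p : Fin (n + 1) × Fin (n + 1)) i => wro (ξ i p.1) (ξ i p.2)) 0
    (fun i _ => ⟨(a i, b i), hw2 i⟩)
  have hwr : D (x' p.1) * x' p.2 - x' p.1 * D (x' p.2) ≠ 0 := by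
    intro h0
    apply hp
    rw [← h0]
    change Ψ (fun i => wro (ξ i p.1) (ξ i p.2)) = D (Ψ fun i => ξ i p.1) * Ψ (fun i => ξ i p.2) -
      Ψ (fun i => ξ i p.1) * D (Ψ fun i => ξ i p.2)
    rw [hΨD, hΨD, ← map_mul, ← map_mul, ← map_sub]
    rfl
  obtain ⟨l, hl⟩ : ∃ l, x' l ≠ 0 := by
    by_contra hcon
    push Not at hcon
    apply hwr
    rw [hcon p.1, hcon p.2, mul_zero, zero_mul, sub_zero]
  have hFam : ∀ t : Finset KK, (∀ z ∈ t, ∃ j, z = x' j / x' l) → (∀ j, x' j / x' l ∈ t) →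
      RatFam R t := by
    intro t ht1 ht2
    refine hyp.main hCst (goodB_bot D) hR (fun z hz => ?_) ?_
    · obtain ⟨j, rfl⟩ := ht1 z hz
      exact fracs_mem (hx' j) (hx' l)
    · by_contra hcon
      push Not at hcon
      apply hwr
      have h1 : ∀ j, ∃ c : ℂ, x' j = algebraMap ℂ KK c * x' l := by
        intro j
        obtain ⟨c, hc⟩ := const_of_alg (hcon (x' j / x' l) (ht2 j))
        exact ⟨c, by rwa [div_eq_iff hl] at hc⟩
      obtain ⟨c1, hc1⟩ := h1 p.1
      obtain ⟨c2, hc2⟩ := h1 p.2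
      rw [hc1, hc2, D.leibniz, D.leibniz, D.map_algebraMap, D.map_algebraMap]
      simp only [smul_eq_mul, mul_zero, add_zero]
      ring
  obtain ⟨M, j1, j2, q, hq1, hq2, hq3⟩ := rat_curve hl hFam
  apply hnu
  let _ : Algebra k M := ((algebraMap ℂ M).comp σs).toAlgebra
  have hcz : CharZero M := charZero_of_injective_algebraMap (algebraMap ℂ M).injective
  have hal : algebraMap k (RatFunc M) = (algebraMap ℂ (RatFunc M)).comp σs := by
    ext c
    rw [IsScalarTower.algebraMap_apply k M (RatFunc M), RingHom.comp_apply,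
      IsScalarTower.algebraMap_apply ℂ M (RatFunc M)]
    rfl
  have hae : ∀ F : MvPolynomial (Fin (n + 1)) k, aeval q F = aeval q (map σs F) := by
    intro F
    rw [aeval_def, aeval_def, eval₂_map, hal]
  have hae' : ∀ F : MvPolynomial (Fin (n + 1)) k,
      aeval x' (map σs F) = eval₂ ((algebraMap ℂ KK).comp σs) x' F := by
    intro F
    rw [aeval_def, eval₂_map]
  refine Pool.Agent.Y837.ST.t_UNI k n FF hhom M q ?_ ?_ ?_
  · intro F hFF d hd
    rw [hae, hq1 _ d (hd.map σs), hae']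
    exact hzero F hFF
  · rintro G ⟨d, hd⟩ hG2 h1
    rw [hae, hq1 _ d (hd.map σs), hae'] at h1
    exact hnz G ⟨d, hd⟩ hG2 h1
  · obtain ⟨i, hi⟩ := hq3
    exact ⟨i, l, hq2, hi⟩

end Pool.Agent.R393.SC
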