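import Pool.Agent.R393.SC.Def

/-!
One closed set for all entire curves given by towers of linear differential equations of bounded complexity.
-/

set_option autoImplicit false

namespace Pool.Agent.R393.SC

open MvPolynomial Pool.Agent.Y377.ST Pool.Agent.Y377.IL Pool.Agent.Y377.EL Pool.Agent.H533R3.SL

variable {s r e n : ℕ}

theorem pev_in {K ι : Type} [Field K] [Algebra ℂ K] [Fintype ι] [DecidableEq ι] (R : Subalgebra ℂ K)
    {c : (ι → Fin (e + 1)) → K} {v : ι → K} (hc : ∀ m, c m ∈ R) (hv : ∀ i, v i ∈ R) : pev c v ∈ R := by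
  unfold pev
  exact R.sum_mem fun m _ => R.mul_mem (hc m) (R.prod_mem fun i _ => R.pow_mem (hv i) _)

/-- the entries of matrices -/
def ent {K : Type} (X Y : Fin s → Matrix (Fin r) (Fin r) K) : Ix s r → K :=
  fun v => if v.2.1 then X v.1 v.2.2.1 v.2.2.2 else Y v.1 v.2.2.1 v.2.2.2

/-- the tower -/
theorem exists_tow {K : Type} [Field K] [Algebra ℂ K] {D : Derivation ℂ K K}
    (X Y : Fin s → Matrix (Fin r) (Fin r) K) (hinv : ∀ l, X l * Y l = 1)
    (c : Fin s → Fin r → Fin r → (Ix s r → Fin (e + 1)) → ℂ)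
    (hode : ∀ l a b, D (X l a b) =
      ∑ k, pev (fun m => algebraMap ℂ K (c l a k m)) (before l (ent X Y)) * X l k b) :
    ∃ R : Subalgebra ℂ K, LTow D ⊥ R ∧ ∀ v, ent X Y v ∈ R := by
  suffices h : ∀ m : ℕ, m ≤ s → ∃ R : Subalgebra ℂ K, LTow D ⊥ R ∧ ∀ v : Ix s r, (v.1 : ℕ) < m →
      ent X Y v ∈ R by
    obtain ⟨R, h1, h2⟩ := h s le_rfl
    exact ⟨R, h1, fun v => h2 v v.1.2⟩
  intro m
  induction m with
  | zero => exact fun _ => ⟨⊥, LTow.base, fun v hv => absurd hv (Nat.not_lt_zero _)⟩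
  | succ m ih =>
    intro hm
    obtain ⟨R, h1, h2⟩ := ih (by omega)
    set l : Fin s := ⟨m, by omega⟩ with hl
    set M : Matrix (Fin r) (Fin r) K := Matrix.of fun a k =>
      pev (fun m => algebraMap ℂ K (c l a k m)) (before l (ent X Y)) with hM
    have hF : Fund D R (X l) (Y l) M := by
      refine ⟨hinv l, fun a k => ?_, fun a b => hode l a b⟩
      refine pev_in R (fun m => R.algebraMap_mem _) fun v => ?_
      unfold before
      split_ifs with hv
      · exact h2 v hv
      · exact R.zero_mem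
    refine ⟨mat R (X l) (Y l), LTow.step h1 hF, fun v hv => ?_⟩
    by_cases hvm : (v.1 : ℕ) < m
    · exact le_mat R _ _ (h2 v hvm)
    · have hvl : v.1 = l := Fin.ext (by rw [hl]; simp; omega)
      unfold ent
      rw [hvl]
      split_ifs
      · exact mem_mat_left R _ _ _ _
      · exact mem_mat_right R _ _ _ _

/-- a rational curve -/
theorem rat_curve {K : Type} [Field K] [Algebra ℂ K] {R : Subalgebra ℂ K} {x : Fin (n + 1) → K}
    {l : Fin (n + 1)} (hl : x l ≠ 0)
    (hF : ∀ t : Finset K, (∀ z ∈ t, ∃ j, z = x j / x l) → (∀ j, x j / x l ∈ t) → RatFam R t) :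
    ∃ (M : Type) (_ : Field M) (_ : Algebra ℂ M) (q : Fin (n + 1) → RatFunc M),
      (∀ (G : MvPolynomial (Fin (n + 1)) ℂ) (d : ℕ), G.IsHomogeneous d →
        (aeval q G = 0 ↔ aeval x G = 0)) ∧ q l ≠ 0 ∧
      ∃ i, ∀ c : M, q i / q l ≠ algebraMap M (RatFunc M) c := by
  classical
  let t : Finset K := Finset.univ.image fun j => x j / x l
  obtain ⟨S0, M, i1, i2, φ, -, h2, -, ⟨z, hz, hzc⟩, -⟩ := hF t (fun z hz => by
    obtain ⟨j, -, rfl⟩ := Finset.mem_image.1 hz
    exact ⟨j, rfl⟩) fun j => Finset.mem_image_of_mem _ (Finset.mem_univ j)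
  have hm : ∀ j, x j / x l ∈ frac S0 := fun j =>
    h2 _ (Finset.mem_image_of_mem _ (Finset.mem_univ j))
  let w : Fin (n + 1) → frac S0 := fun j => ⟨x j / x l, hm j⟩
  refine ⟨M, i1, i2, fun j => φ (w j), fun G d hG => ?_, ?_, ?_⟩
  · have h3 : aeval (fun j => φ (w j)) G = φ (aeval w G) :=
      (MvPolynomial.comp_aeval_apply (f := w) φ G).symm
    have h4 : ((aeval w G : frac S0) : K) = aeval (fun j => x j / x l) G :=
      MvPolynomial.comp_aeval_apply (f := w) (frac S0).val G
    rw [h3, map_eq_zero_iff φ φ.toRingHom.injective, ← Subtype.coe_inj, h4]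
    change aeval (fun j => x j / x l) G = 0 ↔ _
    exact form_div hG x hl
  · have h3 : w l = 1 := Subtype.ext (div_self hl)
    change φ (w l) ≠ 0
    rw [h3, map_one]
    exact one_ne_zero
  · obtain ⟨i, -, hi⟩ := Finset.mem_image.1 hz
    refine ⟨i, fun c hc => hzc c ?_⟩
    have h3 : w l = 1 := Subtype.ext (div_self hl)
    have h4 : w i = z := Subtype.ext hi
    change φ (w i) / φ (w l) = _ at hc
    rw [h3, map_one, div_one, h4] at hc
    exact hc

/-! ### Towers of entire functions -/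

theorem DTower.diffX {X Y : Fin s → ℂ → Matrix (Fin r) (Fin r) ℂ} (h : DTower e X Y) (l : Fin s)
    (i j : Fin r) : Differentiable ℂ fun z => X l z i j := by
  obtain ⟨c, hc⟩ := h.ode l
  exact fun z => (hc z i j).differentiableAt

/-- the entries of `X` -/
def XE {X Y : Fin s → ℂ → Matrix (Fin r) (Fin r) ℂ} (h : DTower e X Y) (l : Fin s) :
    Matrix (Fin r) (Fin r) Ent := Matrix.of fun a b => ⟨fun z => X l z a b, h.diffX l a b⟩

/-- the entries of `Y` -/
def YE {X Y : Fin s → ℂ → Matrix (Fin r) (Fin r) ℂ} (h : DTower e X Y) (l : Fin s) :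
    Matrix (Fin r) (Fin r) Ent := Matrix.of fun a b => ⟨fun z => Y l z a b, h.diffY l a b⟩

/-- evaluation -/
def evE (z : ℂ) : Ent →+* ℂ := (Pi.evalRingHom (fun _ : ℂ => ℂ) z).comp Ent.val.toRingHom

theorem evE_apply (z : ℂ) (f : Ent) : evE z f = (f : ℂ → ℂ) z := rfl

theorem ent_ext {f g : Ent} (h : ∀ z, evE z f = evE z g) : f = g := Subtype.ext (funext h)

theorem evE_ent {X Y : Fin s → ℂ → Matrix (Fin r) (Fin r) ℂ} (h : DTower e X Y) (z : ℂ) (v : Ix s r) :
    evE z (ent (XE h) (YE h) v) = entries X Y z v := by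
  unfold ent entries
  split_ifs <;> rfl

theorem inv_E {X Y : Fin s → ℂ → Matrix (Fin r) (Fin r) ℂ} (h : DTower e X Y) (l : Fin s) :
    XE h l * YE h l = 1 := by
  ext a b z
  have h1 := congrFun (congrFun (h.inv l z) a) b
  have h2 : evE z ((XE h l * YE h l) a b) = evE z ((1 : Matrix (Fin r) (Fin r) Ent) a b) := by
    rw [Matrix.mul_apply, map_sum]
    simp only [map_mul]
    rw [Matrix.mul_apply] at h1
    change ∑ j, X l z a j * Y l z j b = _
    rw [h1, Matrix.one_apply, Matrix.one_apply]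
    split_ifs
    · exact (map_one _).symm
    · exact (map_zero _).symm
  exact h2

theorem ode_E {X Y : Fin s → ℂ → Matrix (Fin r) (Fin r) ℂ} (h : DTower e X Y) (l : Fin s)
    {c : Fin r → Fin r → (Ix s r → Fin (e + 1)) → ℂ} (hc : ∀ z i j,
      HasDerivAt (fun z => X l z i j) (∑ k, pev (c i k) (before l (entries X Y z)) * X l z k j) z)
    (a b : Fin r) : dE (XE h l a b) =
      ∑ k, pev (fun m => algebraMap ℂ Ent (c a k m)) (before l (ent (XE h) (YE h))) * XE h l k b := by
  refine ent_ext fun z => ?_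
  have h1 : evE z (dE (XE h l a b)) = deriv (fun z => X l z a b) z := rfl
  rw [h1, (hc z a b).deriv, map_sum]
  refine Finset.sum_congr rfl fun k _ => ?_
  rw [map_mul, map_pev]
  congr 2
  funext v
  have h2 := before_map (evE z) l (ent (XE h) (YE h)) v
  rw [← h2]
  congr 1
  funext v'
  exact (evE_ent h z v').symm

end Pool.Agent.R393.SC
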